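import Mathlib
import Pool.Agent.Y166.SM.Stm

/-!
# Job SM-1: normal form of symmetric matrices, and the similitude identity
-/

set_option autoImplicit false
set_option linter.unusedSectionVars false

namespace Pool.Agent.Y110.SM

open Pool.Agent.Y166.SM Matrix

theorem sym_sq (k : Type) [Field k] [IsAlgClosed k] [CharZero k]
    (Q : Matrix (Fin 3) (Fin 3) k) (hQ : Q.transpose = Q) :
    ∃ V : Matrix (Fin 3) (Fin 3) k, Q = V * V.transpose := by
  classical
  have : Invertible (2 : k) := invertibleOfNonzero two_ne_zero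
  have hS : LinearMap.IsSymm (Matrix.toBilin' Q) := by
    rw [LinearMap.isSymm_def]
    intro x y
    rw [RingHom.id_apply, Matrix.toBilin'_apply', Matrix.toBilin'_apply']
    rw [Matrix.dotProduct_mulVec, ← Matrix.mulVec_transpose, hQ, dotProduct_comm]
  obtain ⟨v, hv⟩ := LinearMap.BilinForm.exists_orthogonal_basis hS
  have hf : Module.finrank k (Fin 3 → k) = 3 := by simp
  let w : Module.Basis (Fin 3) k (Fin 3 → k) := v.reindex (finCongr hf)
  have hw : ∀ i j : Fin 3, i ≠ j → Matrix.toBilin' Q (w i) (w j) = 0 := by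
    intro i j hij
    have h0 := @hv ((finCongr hf).symm i) ((finCongr hf).symm j) (by
      intro h
      exact hij ((finCongr hf).symm.injective h))
    simpa [w, Module.Basis.reindex_apply] using h0
  choose c hc using fun i : Fin 3 =>
    IsAlgClosed.exists_pow_nat_eq (Matrix.toBilin' Q (w i) (w i)) (show 0 < 2 by norm_num)
  let P : Matrix (Fin 3) (Fin 3) k := Matrix.of fun i j => w i j
  have hPdet : IsUnit P.det := by
    have h1 := (Pi.basisFun k (Fin 3)).isUnit_det w
    rw [Module.Basis.det_apply] at h1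
    have h2 : (Pi.basisFun k (Fin 3)).toMatrix ⇑w = P.transpose := by
      ext i j
      simp [Module.Basis.toMatrix_apply, P]
    rw [h2, Matrix.det_transpose] at h1
    exact h1
  have hPQ : P * Q * P.transpose = Matrix.diagonal c * (Matrix.diagonal c).transpose := by
    ext i j
    have h1 : (P * Q * P.transpose) i j = Matrix.toBilin' Q (w i) (w j) := by
      rw [Matrix.toBilin'_apply']
      rw [Matrix.dotProduct_mulVec]
      simp [Matrix.mul_apply, P, dotProduct, Matrix.vecMul]
    rw [h1, Matrix.diagonal_transpose, Matrix.diagonal_mul_diagonal]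
    by_cases hij : i = j
    · subst hij
      rw [Matrix.diagonal_apply_eq, ← hc i, pow_two]
    · rw [Matrix.diagonal_apply_ne _ hij, hw i j hij]
  refine ⟨P⁻¹ * Matrix.diagonal c, ?_⟩
  have h3 : P⁻¹ * (P * Q * P.transpose) * (P.transpose)⁻¹ = Q := by
    rw [← Matrix.mul_assoc, ← Matrix.mul_assoc, Matrix.nonsing_inv_mul _ hPdet, Matrix.one_mul,
      Matrix.mul_assoc, Matrix.mul_nonsing_inv _ (by rw [Matrix.det_transpose]; exact hPdet),
      Matrix.mul_one]
  rw [← h3, hPQ, Matrix.transpose_mul, Matrix.transpose_nonsing_inv]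
  simp only [Matrix.mul_assoc]

theorem stmNF : StmNF := by
  intro k _ _ _ Q hQ hdet
  obtain ⟨V, hV⟩ := sym_sq k Q hQ
  obtain ⟨W, hW⟩ := sym_sq k (Jm k) (by
    ext i j
    fin_cases i <;> fin_cases j <;> simp [Jm, Matrix.transpose_apply])
  have hJ : (Jm k).det ≠ 0 := by
    simp [Jm, Matrix.det_fin_three]
  have hWd : W.det ≠ 0 := by
    intro h
    apply hJ
    rw [hW, Matrix.det_mul, h, zero_mul]
  have hVd : V.det ≠ 0 := by
    intro h
    apply hdet
    rw [hV, Matrix.det_mul, h, zero_mul]
  have hWu : IsUnit W.det := isUnit_iff_ne_zero.mpr hWd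
  refine ⟨V * W⁻¹, ?_, ?_⟩
  · rw [Matrix.det_mul]
    refine mul_ne_zero hVd ?_
    have := (Matrix.isUnit_nonsing_inv_det W hWu)
    exact this.ne_zero
  · rw [hW, Matrix.transpose_mul]
    have h1 : W⁻¹ * W = 1 := Matrix.nonsing_inv_mul _ hWu
    have h2 : W.transpose * (W⁻¹).transpose = 1 := by
      rw [← Matrix.transpose_mul, h1, Matrix.transpose_one]
    calc Q = V * V.transpose := hV
      _ = V * (W⁻¹ * W) * (W.transpose * (W⁻¹).transpose) * V.transpose := by
          rw [h1, h2, Matrix.mul_one, Matrix.mul_one]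
      _ = V * W⁻¹ * (W * W.transpose) * ((W⁻¹).transpose * V.transpose) := by
          simp only [Matrix.mul_assoc]

theorem stmRho : StmRho := by
  intro A _ p q r t
  constructor
  · ext i j
    fin_cases i <;> fin_cases j <;>
      simp [rhoM, Jm, Matrix.mul_apply, Fin.sum_univ_three] <;> ring
  · simp [rhoM, Matrix.det_fin_three]
    ring

end Pool.Agent.Y110.SM
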